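import Mathlib

/-!
# Cut sizes in cubic graphs and the atom argument

`d G X` is the number of edges leaving `X`, `I G X` twice the number of edges inside `X`.
-/

namespace Pool.Agent.Y855.HT

open SimpleGraph Finset

variable {V : Type} [Fintype V] [DecidableEq V] (G : SimpleGraph V) [DecidableRel G.Adj]

/-- The number of ordered pairs `(u, w)` with `u ∈ X`, `w ∉ X` and `u` adjacent to `w`. -/
def d (X : Finset V) : ℕ := ∑ u, ∑ w, if u ∈ X ∧ w ∉ X ∧ G.Adj u w then 1 else 0

/-- The number of ordered pairs of adjacent vertices in `X`. -/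
def I (X : Finset V) : ℕ := ∑ u, ∑ w, if u ∈ X ∧ w ∈ X ∧ G.Adj u w then 1 else 0

/-- A nonempty set of vertices in which every vertex has at least two neighbours. -/
def Core (C : Finset V) : Prop := C.Nonempty ∧ ∀ v ∈ C, 2 ≤ (G.neighborFinset v ∩ C).card

theorem d_submod (X Y : Finset V) : d G (X ∩ Y) + d G (X ∪ Y) ≤ d G X + d G Y := by
  unfold d
  rw [← Finset.sum_add_distrib, ← Finset.sum_add_distrib]
  refine Finset.sum_le_sum fun u _ => ?_
  rw [← Finset.sum_add_distrib, ← Finset.sum_add_distrib]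
  refine Finset.sum_le_sum fun w _ => ?_
  simp only [Finset.mem_inter, Finset.mem_union]
  by_cases h1 : u ∈ X <;> by_cases h2 : u ∈ Y <;> by_cases h3 : w ∈ X <;> by_cases h4 : w ∈ Y <;>
    by_cases h5 : G.Adj u w <;> simp [h1, h2, h3, h4, h5]

theorem d_compl (X : Finset V) : d G Xᶜ = d G X := by
  unfold d
  rw [Finset.sum_comm]
  refine Finset.sum_congr rfl fun u _ => Finset.sum_congr rfl fun w _ => ?_
  simp only [Finset.mem_compl, not_not]
  by_cases h1 : u ∈ X <;> by_cases h3 : w ∈ X <;> simp [h1, h3, G.adj_comm]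

theorem d_posimod (X Y : Finset V) : d G (X \ Y) + d G (Y \ X) ≤ d G X + d G Y := by
  have h := d_submod G X Yᶜ
  rw [d_compl G Y] at h
  have h1 : X ∩ Yᶜ = X \ Y := by ext v; simp
  have h2 : (X ∪ Yᶜ)ᶜ = Y \ X := by
    ext v
    simp only [Finset.mem_compl, Finset.mem_union, Finset.mem_sdiff]
    tauto
  rw [h1, ← d_compl G (X ∪ Yᶜ), h2] at h
  exact h

theorem sum_nbr (u : V) (X : Finset V) :
    (∑ w, if w ∈ X ∧ G.Adj u w then 1 else 0) = (G.neighborFinset u ∩ X).card := by
  rw [Finset.sum_boole, Nat.cast_id]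
  congr 1
  ext w
  simp [and_comm]

theorem I_eq (X : Finset V) : I G X = ∑ u ∈ X, (G.neighborFinset u ∩ X).card := by
  unfold I
  rw [← Finset.sum_subset (Finset.subset_univ X)]
  · refine Finset.sum_congr rfl fun u hu => ?_
    rw [← sum_nbr]
    refine Finset.sum_congr rfl fun w _ => ?_
    simp [hu]
  · intro u _ hu
    refine Finset.sum_eq_zero fun w _ => ?_
    simp [hu]

theorem d_eq (X : Finset V) : d G X = ∑ u ∈ X, (G.neighborFinset u \ X).card := by
  unfold d
  rw [← Finset.sum_subset (Finset.subset_univ X)]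
  · refine Finset.sum_congr rfl fun u hu => ?_
    have h : (∑ w, if u ∈ X ∧ w ∉ X ∧ G.Adj u w then 1 else 0) =
        ∑ w, if w ∈ Xᶜ ∧ G.Adj u w then 1 else 0 := by
      refine Finset.sum_congr rfl fun w _ => ?_
      simp [hu]
    rw [h, sum_nbr]
    congr 1
    ext w
    simp
  · intro u _ hu
    refine Finset.sum_eq_zero fun w _ => ?_
    simp [hu]

theorem d_add_I (hreg : ∀ v, G.degree v = 3) (X : Finset V) : d G X + I G X = 3 * X.card := by
  rw [d_eq, I_eq, ← Finset.sum_add_distrib]
  have h : ∀ u ∈ X, (G.neighborFinset u \ X).card + (G.neighborFinset u ∩ X).card = 3 := by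
    intro u _
    rw [Finset.card_sdiff_add_card_inter, G.card_neighborFinset_eq_degree, hreg]
  rw [Finset.sum_congr rfl h, Finset.sum_const, smul_eq_mul, mul_comm]

theorem I_erase (X : Finset V) {v : V} (hv : v ∈ X) :
    I G X = I G (X.erase v) + 2 * (G.neighborFinset v ∩ X).card := by
  rw [I_eq, I_eq, ← Finset.add_sum_erase X _ hv]
  have h : ∀ u ∈ X.erase v, (G.neighborFinset u ∩ X).card =
      (G.neighborFinset u ∩ X.erase v).card + if G.Adj v u then 1 else 0 := by
    intro u hu
    have h1 : G.neighborFinset u ∩ X.erase v = (G.neighborFinset u ∩ X).erase v := by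
      ext w
      simp only [Finset.mem_inter, Finset.mem_erase]
      tauto
    rw [h1]
    by_cases hadj : G.Adj v u
    · have hm : v ∈ G.neighborFinset u ∩ X := by
        rw [Finset.mem_inter, mem_neighborFinset]
        exact ⟨hadj.symm, hv⟩
      rw [if_pos hadj, Finset.card_erase_add_one hm]
    · have hm : v ∉ G.neighborFinset u ∩ X := by
        rw [Finset.mem_inter, mem_neighborFinset]
        exact fun h => hadj h.1.symm
      rw [if_neg hadj, Finset.erase_eq_of_notMem hm, add_zero]
  rw [Finset.sum_congr rfl h, Finset.sum_add_distrib]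
  have h2 : (∑ u ∈ X.erase v, if G.Adj v u then 1 else 0) = (G.neighborFinset v ∩ X).card := by
    rw [Finset.sum_boole, Nat.cast_id]
    congr 1
    ext w
    simp only [Finset.mem_filter, Finset.mem_erase, Finset.mem_inter, mem_neighborFinset]
    constructor
    · rintro ⟨⟨h1, h2⟩, h3⟩
      exact ⟨h3, h2⟩
    · rintro ⟨h1, h2⟩
      exact ⟨⟨h1.ne', h2⟩, h1⟩
  rw [h2]
  ring

/-- A nonempty set with many inner edges contains a core. -/
theorem exists_core : ∀ (n : ℕ) (X : Finset V), X.card = n → X.Nonempty → 2 * X.card ≤ I G X →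
    ∃ C ⊆ X, Core G C := by
  intro n
  induction n with
  | zero =>
    intro X hX hne _
    rw [Finset.card_eq_zero] at hX
    exact absurd hX hne.ne_empty
  | succ n ih =>
    intro X hX hne hI
    by_cases hall : ∀ v ∈ X, 2 ≤ (G.neighborFinset v ∩ X).card
    · exact ⟨X, subset_rfl, hne, hall⟩
    · push Not at hall
      obtain ⟨v, hv, hlt⟩ := hall
      have h1 := I_erase G X hv
      have h2 := Finset.card_erase_of_mem hv
      have hne' : (X.erase v).Nonempty := by
        rw [← Finset.card_pos]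
        rcases Nat.eq_zero_or_pos n with rfl | hn
        · exfalso
          have h3 : X = {v} := by
            rw [Finset.card_eq_one] at hX
            obtain ⟨x, rfl⟩ := hX
            rw [Finset.mem_singleton] at hv
            rw [hv]
          have h4 : I G X = 0 := by
            rw [I_eq, h3, Finset.sum_singleton, Finset.card_eq_zero]
            ext w
            simp only [Finset.mem_inter, mem_neighborFinset, Finset.mem_singleton,
              Finset.notMem_empty, iff_false, not_and]
            rintro h rfl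
            exact G.loopless.irrefl _ h
          omega
        · omega
      obtain ⟨C, hC, hcore⟩ := ih (X.erase v) (by omega) hne' (by omega)
      exact ⟨C, hC.trans (Finset.erase_subset _ _), hcore⟩

/-- In a cubic graph a nonempty set without a core has more than `|Z|` leaving edges. -/
theorem card_lt_d (hreg : ∀ v, G.degree v = 3) {Z : Finset V} (hZ : Z.Nonempty)
    (hno : ∀ C ⊆ Z, ¬ Core G C) : Z.card < d G Z := by
  by_contra hlt
  have h1 := d_add_I G hreg Z
  obtain ⟨C, hC, hcore⟩ := exists_core G _ Z rfl hZ (by omega)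
  exact hno C hC hcore

/-- Both sides of the cut contain a core. -/
def Cyc (X : Finset V) : Prop := (∃ C ⊆ X, Core G C) ∧ ∃ C ⊆ Xᶜ, Core G C

theorem core_map {C : Finset V} (φ : G ≃g G) (h : Core G C) : Core G (C.map φ.toEquiv.toEmbedding) := by
  refine ⟨h.1.map, fun v hv => ?_⟩
  rw [Finset.mem_map] at hv
  obtain ⟨u, hu, rfl⟩ := hv
  refine (h.2 u hu).trans (le_of_eq ?_)
  rw [← Finset.card_map φ.toEquiv.toEmbedding]
  congr 1
  ext w
  simp only [Finset.mem_map, Finset.mem_inter, mem_neighborFinset]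
  constructor
  · rintro ⟨x, ⟨h1, h2⟩, rfl⟩
    exact ⟨φ.map_adj_iff.2 h1, x, h2, rfl⟩
  · rintro ⟨h1, x, h2, rfl⟩
    exact ⟨x, ⟨φ.map_adj_iff.1 h1, h2⟩, rfl⟩

theorem d_map (φ : G ≃g G) (X : Finset V) : d G (X.map φ.toEquiv.toEmbedding) = d G X := by
  rw [d_eq, d_eq, Finset.sum_map]
  refine Finset.sum_congr rfl fun u _ => ?_
  rw [← Finset.card_map (s := G.neighborFinset u \ X) φ.toEquiv.toEmbedding]
  congr 1
  ext w
  simp only [Finset.mem_map, Finset.mem_sdiff, mem_neighborFinset]
  constructor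
  · rintro ⟨h1, h2⟩
    refine ⟨φ.symm w, ⟨?_, ?_⟩, φ.apply_symm_apply w⟩
    · rw [← φ.map_adj_iff, φ.apply_symm_apply]
      exact h1
    · intro h3
      exact h2 ⟨_, h3, φ.apply_symm_apply w⟩
  · rintro ⟨x, ⟨h1, h2⟩, rfl⟩
    refine ⟨φ.map_adj_iff.2 h1, ?_⟩
    rintro ⟨y, hy, hxy⟩
    exact h2 (φ.toEquiv.injective hxy ▸ hy)

theorem cyc_map (φ : G ≃g G) {X : Finset V} (h : Cyc G X) : Cyc G (X.map φ.toEquiv.toEmbedding) := by
  obtain ⟨⟨C, hC, h1⟩, ⟨D, hD, h2⟩⟩ := h
  refine ⟨⟨_, Finset.map_subset_map.2 hC, core_map G φ h1⟩, ⟨_, ?_, core_map G φ h2⟩⟩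
  intro w hw
  rw [Finset.mem_map] at hw
  obtain ⟨x, hx, rfl⟩ := hw
  rw [Finset.mem_compl, Finset.mem_map]
  rintro ⟨y, hy, hxy⟩
  have := φ.toEquiv.injective hxy
  exact (Finset.mem_compl.1 (hD hx)) (this ▸ hy)

theorem cyc_compl {X : Finset V} (h : Cyc G X) : Cyc G Xᶜ := by
  refine ⟨h.2, ?_⟩
  rw [compl_compl]
  exact h.1

/-- **No small cyclic cuts.** In a connected vertex-transitive cubic graph all of whose cores have
at least `2 m` elements, every cut with a core on both sides has at least `m` edges. -/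
theorem no_small_cut (hreg : ∀ v, G.degree v = 3) (hconn : G.Connected)
    (htrans : ∀ u v : V, ∃ φ : G ≃g G, φ u = v) (m : ℕ)
    (hcore : ∀ C : Finset V, Core G C → 2 * m ≤ C.card) (X₀ : Finset V) (h₀ : Cyc G X₀) :
    m ≤ d G X₀ := by
  classical
  by_contra hlt₀
  push Not at hlt₀
  -- an atom
  obtain ⟨X, hX, hmin⟩ := Finset.exists_min_image (Finset.univ.filter (fun Z : Finset V => Cyc G Z))
    (fun Z => d G Z * (Fintype.card V + 1) + Z.card) ⟨X₀, by simpa using h₀⟩
  rw [Finset.mem_filter] at hX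
  have hXc := hX.2
  have hle : ∀ Z : Finset V, Z.card ≤ Fintype.card V := fun Z => Finset.card_le_univ Z
  have hd : ∀ Z, Cyc G Z → d G X ≤ d G Z := by
    intro Z hZ
    have h1 := hmin Z (by simpa using hZ)
    by_contra hcon
    push Not at hcon
    have h2 : (d G Z + 1) * (Fintype.card V + 1) ≤ d G X * (Fintype.card V + 1) :=
      Nat.mul_le_mul_right _ hcon
    have h3 := hle Z
    have h4 : (d G Z + 1) * (Fintype.card V + 1) =
        d G Z * (Fintype.card V + 1) + (Fintype.card V + 1) := by ring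
    omega
  have hc : ∀ Z, Cyc G Z → d G Z ≤ d G X → X.card ≤ Z.card := by
    intro Z hZ hle'
    have h1 := hmin Z (by simpa using hZ)
    have h2 := hd Z hZ
    have h3 : d G Z = d G X := le_antisymm hle' h2
    rw [h3] at h1
    omega
  set c := d G X with hcdef
  have hcm : c < m := lt_of_le_of_lt (hd X₀ h₀) hlt₀
  have hXg : 2 * m ≤ X.card := by
    obtain ⟨C, hC, h⟩ := hXc.1
    exact (hcore C h).trans (Finset.card_le_card hC)
  have hhalf : X.card ≤ Xᶜ.card := hc _ (cyc_compl G hXc) (by rw [d_compl])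
  -- small proper parts of atoms
  have hsmall : ∀ (Y Z : Finset V), Cyc G Y → Y.card = X.card → Z ⊆ Y → Z.card < Y.card →
      d G Z ≤ c → Z.card < m := by
    intro Y Z hY hYX hZY hZlt hdZ
    rcases Z.eq_empty_or_nonempty with rfl | hne
    · simp; omega
    · have hno : ∀ C ⊆ Z, ¬ Core G C := by
        intro C hC hcoreC
        have hcyc : Cyc G Z := by
          refine ⟨⟨C, hC, hcoreC⟩, ?_⟩
          obtain ⟨D, hD, h⟩ := hY.2
          exact ⟨D, hD.trans (Finset.compl_subset_compl.2 hZY), h⟩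
        have := hc Z hcyc hdZ
        omega
      have := card_lt_d G hreg hne hno
      omega
  -- atoms are blocks
  have hblock : ∀ φ : G ≃g G, (∃ v ∈ X, v ∈ X.map φ.toEquiv.toEmbedding) →
      X.map φ.toEquiv.toEmbedding = X := by
    intro φ ⟨v, hv1, hv2⟩
    set Y := X.map φ.toEquiv.toEmbedding with hYdef
    have hYcyc : Cyc G Y := cyc_map G φ hXc
    have hYd : d G Y = c := d_map G φ X
    have hYcard : Y.card = X.card := Finset.card_map _
    by_contra hne
    have hA : (X ∩ Y).card < X.card := by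
      refine Finset.card_lt_card ⟨Finset.inter_subset_left, fun h => hne ?_⟩
      have hsub : X ⊆ Y := fun x hx => (Finset.mem_inter.1 (h hx)).2
      exact (Finset.eq_of_subset_of_card_le hsub hYcard.le).symm
    have hsub := d_submod G X Y
    rw [hYd] at hsub
    have hAm : (X ∩ Y).card < m := by
      rcases Nat.lt_or_ge c (d G (X ∩ Y)) with hgt | hle'
      · have hU : d G (X ∪ Y) < c := by omega
        have hnoU : ¬ Cyc G (X ∪ Y) := fun h => absurd (hd _ h) (by omega)
        have hAU : (X ∩ Y).card ≤ (X ∪ Y)ᶜ.card := by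
          have e1 := Finset.card_union_add_card_inter X Y
          have e2 := Finset.card_compl_add_card (X ∪ Y)
          have e3 := Finset.card_compl_add_card X
          omega
        rcases ((X ∪ Y)ᶜ).eq_empty_or_nonempty with he | hne'
        · rw [he, Finset.card_empty] at hAU
          omega
        · have hno : ∀ C ⊆ (X ∪ Y)ᶜ, ¬ Core G C := by
            intro C hC hcoreC
            refine hnoU ⟨?_, ⟨C, hC, hcoreC⟩⟩
            obtain ⟨D, hD, h⟩ := hXc.1
            exact ⟨D, hD.trans Finset.subset_union_left, h⟩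
          have h1 := card_lt_d G hreg hne' hno
          rw [d_compl] at h1
          omega
      · exact hsmall X (X ∩ Y) hXc rfl Finset.inter_subset_left hA hle'
    have hpos := d_posimod G X Y
    rw [hYd] at hpos
    have e1 : (X \ Y).card + (X ∩ Y).card = X.card := Finset.card_sdiff_add_card_inter X Y
    have e2 : (Y \ X).card + (Y ∩ X).card = Y.card := Finset.card_sdiff_add_card_inter Y X
    rw [Finset.inter_comm Y X] at e2
    have hApos : 0 < (X ∩ Y).card := Finset.card_pos.2 ⟨v, Finset.mem_inter.2 ⟨hv1, hv2⟩⟩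
    rcases Nat.lt_or_ge c (d G (X \ Y)) with hgt | hle'
    · have := hsmall Y (Y \ X) hYcyc hYcard Finset.sdiff_subset (by omega) (by omega)
      omega
    · have := hsmall X (X \ Y) hXc rfl Finset.sdiff_subset (by omega) hle'
      omega
  -- some vertex of `X` has a neighbour outside
  have hXne : X.Nonempty := by
    obtain ⟨C, hC, h⟩ := hXc.1
    exact h.1.mono hC
  have hXcne : (Xᶜ).Nonempty := by
    obtain ⟨C, hC, h⟩ := hXc.2
    exact h.1.mono hC
  obtain ⟨x, hx⟩ := hXne
  obtain ⟨y, hy⟩ := hXcne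
  rw [Finset.mem_compl] at hy
  obtain ⟨u, w, hu, hw, huw⟩ : ∃ u w, u ∈ X ∧ w ∉ X ∧ G.Adj u w := by
    obtain ⟨p⟩ := hconn.preconnected x y
    obtain ⟨dd, hd1, hd2, hd3⟩ := p.exists_boundary_dart (X : Set V) (by simpa using hx)
      (by simpa using hy)
    exact ⟨dd.fst, dd.snd, by simpa using hd2, by simpa using hd3, dd.adj⟩
  have hout : ∀ v ∈ X, 1 ≤ (G.neighborFinset v \ X).card := by
    intro v hv
    obtain ⟨φ, hφ⟩ := htrans u v
    have hmap := hblock φ ⟨v, hv, Finset.mem_map.2 ⟨u, hu, hφ⟩⟩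
    rw [Nat.succ_le_iff, Finset.card_pos]
    refine ⟨φ w, ?_⟩
    rw [Finset.mem_sdiff, mem_neighborFinset, ← hφ]
    refine ⟨φ.map_adj_iff.2 huw, fun hmem => hw ?_⟩
    rw [← hmap, Finset.mem_map] at hmem
    obtain ⟨z, hz, hzw⟩ := hmem
    exact φ.toEquiv.injective hzw ▸ hz
  have hfin : X.card ≤ d G X := by
    rw [d_eq, Finset.card_eq_sum_ones]
    exact Finset.sum_le_sum hout
  omega

end Pool.Agent.Y855.HT
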