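import Mathlib
import Pool.Agent.Y855.HT.Cut

/-!
# Cubic Cayley graphs of large girth

`cay s` is the Cayley graph of a group with respect to three involutions.  If no short reduced word
in the involutions is trivial, then cores are large.
-/

namespace Pool.Agent.Y855.HT

open SimpleGraph Finset

section Cayley

variable {H : Type} [Group H]

/-- The Cayley graph with respect to three involutions: `g` is adjacent to `g * s i`. -/
def cay (s : Fin 3 → H) (h1 : ∀ i, s i * s i = 1) (h2 : ∀ i, s i ≠ 1) : SimpleGraph H where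
  Adj g h := ∃ i, h = g * s i
  symm := ⟨by
    rintro g h ⟨i, rfl⟩
    exact ⟨i, by rw [mul_assoc, h1, mul_one]⟩⟩
  loopless := ⟨by
    rintro g ⟨i, hi⟩
    exact h2 i (by simpa using hi.symm)⟩

variable {s : Fin 3 → H} {h1 : ∀ i, s i * s i = 1} {h2 : ∀ i, s i ≠ 1}

theorem cay_adj {g h : H} : (cay s h1 h2).Adj g h ↔ ∃ i, h = g * s i := Iff.rfl

theorem cay_nbr (hinj : Function.Injective s) (g : H) : ((cay s h1 h2).neighborSet g).ncard = 3 := by
  have h : (cay s h1 h2).neighborSet g = Set.range fun i => g * s i := by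
    ext x
    simp [mem_neighborSet, cay_adj, eq_comm]
  rw [h, ← Set.image_univ, Set.ncard_image_of_injective _ (fun i j hij => hinj (mul_left_cancel hij)),
    Set.ncard_univ, Nat.card_fin]

theorem cay_trans (u v : H) : ∃ φ : cay s h1 h2 ≃g cay s h1 h2, φ u = v := by
  refine ⟨⟨Equiv.mulLeft (v * u⁻¹), ?_⟩, by simp⟩
  intro a b
  simp only [Equiv.coe_mulLeft, cay_adj]
  refine exists_congr fun i => ?_
  rw [mul_assoc (v * u⁻¹) a (s i)]
  exact mul_right_inj _

theorem cay_connected (hgen : Subgroup.closure (Set.range s) = ⊤) : (cay s h1 h2).Connected := by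
  have key : ∀ g : H, ∀ h : H, (cay s h1 h2).Reachable h (h * g) := by
    intro g
    have hg : g ∈ Subgroup.closure (Set.range s) := by rw [hgen]; trivial
    induction hg using Subgroup.closure_induction with
    | mem x hx =>
      obtain ⟨i, rfl⟩ := hx
      intro h
      exact Adj.reachable ⟨i, rfl⟩
    | one => intro h; rw [mul_one]
    | mul x y _ _ hx hy =>
      intro h
      rw [← mul_assoc]
      exact (hx h).trans (hy _)
    | inv x _ hx =>
      intro h
      have := hx (h * x⁻¹)
      rw [inv_mul_cancel_right] at this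
      exact this.symm
  have : Nonempty H := ⟨1⟩
  refine Connected.mk fun a b => ?_
  have := key (a⁻¹ * b) a
  rwa [mul_inv_cancel_left] at this

/-- No nonempty reduced word of length at most `N` is trivial. -/
def NoRel (s : Fin 3 → H) (N : ℕ) : Prop :=
  ∀ w : List (Fin 3), w.IsChain (· ≠ ·) → w ≠ [] → w.length ≤ N → (w.map s).prod ≠ 1

/-- The word with letters `f (a+1), ..., f (a+L)`. -/
def word (f : ℕ → Fin 3) : ℕ → ℕ → List (Fin 3)
  | _, 0 => []
  | a, L + 1 => f (a + 1) :: word f (a + 1) L

theorem word_length (f : ℕ → Fin 3) : ∀ L a, (word f a L).length = L := by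
  intro L
  induction L with
  | zero => intro a; rfl
  | succ L ih => intro a; simp [word, ih]

theorem word_chain {f : ℕ → Fin 3} (hf : ∀ n, f (n + 1) ≠ f n) :
    ∀ L a, (word f a L).IsChain (· ≠ ·) := by
  intro L
  induction L with
  | zero => intro a; exact List.isChain_nil
  | succ L ih =>
    intro a
    rw [word, List.isChain_cons]
    refine ⟨?_, ih _⟩
    intro y hy
    cases L with
    | zero => simp [word] at hy
    | succ L =>
      simp only [word, List.head?_cons, Option.mem_def, Option.some.injEq] at hy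
      rw [← hy]
      exact (hf (a + 1)).symm

theorem word_prod {f : ℕ → Fin 3} {v : ℕ → H} (hv : ∀ n, v (n + 1) = v n * s (f (n + 1))) :
    ∀ L a, v (a + L) = v a * ((word f a L).map s).prod := by
  intro L
  induction L with
  | zero => intro a; simp [word]
  | succ L ih =>
    intro a
    have h := ih (a + 1)
    rw [show a + (L + 1) = a + 1 + L by ring, h, hv a, word, List.map_cons, List.prod_cons, mul_assoc]

/-- Cores are large. -/
theorem core_card [Fintype H] [DecidableEq H] [DecidableRel (cay s h1 h2).Adj] {N : ℕ}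
    (hrel : NoRel s N) (C : Finset H) (hC : Core (cay s h1 h2) C) : N < C.card := by
  by_contra hle
  push Not at hle
  have hstep : ∀ (v : H), v ∈ C → ∀ i : Fin 3, ∃ j, j ≠ i ∧ v * s j ∈ C := by
    intro v hv i
    have h3 := hC.2 v hv
    by_contra hno
    push Not at hno
    have hsub : (cay s h1 h2).neighborFinset v ∩ C ⊆ {v * s i} := by
      intro x hx
      rw [Finset.mem_inter, mem_neighborFinset] at hx
      obtain ⟨⟨j, rfl⟩, hx2⟩ := hx
      rw [Finset.mem_singleton]
      by_cases hj : j = i
      · rw [hj]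
      · exact absurd hx2 (hno j hj)
    have := Finset.card_le_card hsub
    rw [Finset.card_singleton] at this
    omega
  choose nxt hn1 hn2 using hstep
  obtain ⟨v0, hv0⟩ := hC.1
  let st : ℕ → {p : H × Fin 3 // p.1 ∈ C} := fun n =>
    Nat.rec ⟨(v0, 0), hv0⟩ (fun _ p => ⟨(p.1.1 * s (nxt p.1.1 p.2 p.1.2), nxt p.1.1 p.2 p.1.2),
      hn2 _ _ _⟩) n
  let v : ℕ → H := fun n => (st n).1.1
  let f : ℕ → Fin 3 := fun n => (st n).1.2
  have hv : ∀ n, v (n + 1) = v n * s (f (n + 1)) := fun n => rfl
  have hf : ∀ n, f (n + 1) ≠ f n := fun n => hn1 _ _ _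
  have hmem : ∀ n, v n ∈ C := fun n => (st n).2
  obtain ⟨a, ha, b, hb, hab, heq⟩ := Finset.exists_ne_map_eq_of_card_lt_of_maps_to
    (s := Finset.range (C.card + 1)) (t := C) (f := v) (by simp) (fun n _ => hmem n)
  rw [Finset.mem_range] at ha hb
  have main : ∀ a b : ℕ, a < b → b < C.card + 1 → v a = v b → False := by
    intro a b hab hb heq
    have h3 := word_prod hv (b - a) a
    rw [show a + (b - a) = b by omega, ← heq] at h3
    refine hrel (word f a (b - a)) (word_chain hf _ _) ?_ ?_ ?_
    · intro h0
      have := word_length f (b - a) a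
      rw [h0] at this
      simp at this
      omega
    · rw [word_length]; omega
    · simpa using h3.symm
  rcases Nat.lt_or_gt_of_ne hab with h | h
  · exact main a b h hb heq
  · exact main b a h ha heq.symm

end Cayley

/-! ### Involutions on the ball of the tree -/

/-- The reduced words of length at most `R`. -/
abbrev Ball (R : ℕ) : Type := {w : List (Fin 3) // w.length ≤ R ∧ w.IsChain (· ≠ ·)}

instance (R : ℕ) : Finite (Ball R) :=
  (Set.Finite.subset (List.finite_length_le (Fin 3) R) (fun _ hw => hw.1)).to_subtype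

/-- Add or remove the first letter `i`. -/
def flip (R : ℕ) (i : Fin 3) (w : List (Fin 3)) : List (Fin 3) :=
  if w.head? = some i then w.tail else if w.length < R then i :: w else w

theorem flip_mem {R : ℕ} (i : Fin 3) {w : List (Fin 3)} (hw : w.length ≤ R ∧ w.IsChain (· ≠ ·)) :
    (flip R i w).length ≤ R ∧ (flip R i w).IsChain (· ≠ ·) := by
  unfold flip
  split_ifs with h1 h2
  · refine ⟨by simp; omega, hw.2.tail⟩
  · refine ⟨by simpa using h2, ?_⟩
    rw [List.isChain_cons]
    refine ⟨fun y hy => ?_, hw.2⟩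
    rintro rfl
    exact h1 hy
  · exact hw

theorem flip_flip {R : ℕ} (i : Fin 3) {w : List (Fin 3)} (hw : w.length ≤ R ∧ w.IsChain (· ≠ ·)) :
    flip R i (flip R i w) = w := by
  unfold flip
  by_cases h1 : w.head? = some i
  · rw [if_pos h1]
    obtain ⟨t, rfl⟩ : ∃ t, w = i :: t := by
      cases w with
      | nil => simp at h1
      | cons a t =>
        simp only [List.head?_cons, Option.some.injEq] at h1
        exact ⟨t, by rw [h1]⟩
    rw [List.tail_cons]
    have h3 := hw.2
    rw [List.isChain_cons] at h3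
    have h4 : t.head? ≠ some i := fun h => h3.1 i h rfl
    rw [if_neg h4, if_pos]
    have := hw.1
    simp only [List.length_cons] at this
    omega
  · rw [if_neg h1]
    by_cases h2 : w.length < R
    · rw [if_pos h2]
      simp
    · rw [if_neg h2, if_neg h1, if_neg h2]

/-- The involution `flip` as a permutation of the ball. -/
def sig (R : ℕ) (i : Fin 3) : Equiv.Perm (Ball R) where
  toFun w := ⟨flip R i w.1, flip_mem i w.2⟩
  invFun w := ⟨flip R i w.1, flip_mem i w.2⟩
  left_inv w := Subtype.ext (flip_flip i w.2)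
  right_inv w := Subtype.ext (flip_flip i w.2)

theorem sig_sq (R : ℕ) (i : Fin 3) : sig R i * sig R i = 1 :=
  Equiv.ext fun w => Subtype.ext (flip_flip i w.2)

/-- The empty word. -/
def emp (R : ℕ) : Ball R := ⟨[], by simp⟩

theorem prod_sig {R : ℕ} : ∀ w : List (Fin 3), w.IsChain (· ≠ ·) → w.length ≤ R →
    ((w.map (sig R)).prod (emp R)).1 = w := by
  intro w
  induction w with
  | nil => intro _ _; rfl
  | cons a w ih =>
    intro hc hl
    rw [List.isChain_cons] at hc
    simp only [List.length_cons] at hl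
    have h := ih hc.2 (by omega)
    rw [List.map_cons, List.prod_cons, Equiv.Perm.mul_apply]
    change flip R a ((w.map (sig R)).prod (emp R)).1 = a :: w
    rw [h]
    unfold flip
    rw [if_neg (fun h0 : w.head? = some a => hc.1 a h0 rfl), if_pos (by omega)]

/-- The group generated by the three involutions. -/
abbrev Gam (R : ℕ) : Type := Subgroup.closure (Set.range (sig R))

/-- The generators. -/
def gen (R : ℕ) (i : Fin 3) : Gam R := ⟨sig R i, Subgroup.subset_closure ⟨i, rfl⟩⟩

theorem gen_sq (R : ℕ) (i : Fin 3) : gen R i * gen R i = 1 := Subtype.ext (sig_sq R i)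

theorem gen_prod (R : ℕ) (w : List (Fin 3)) :
    ((w.map (gen R)).prod : Equiv.Perm (Ball R)) = (w.map (sig R)).prod := by
  induction w with
  | nil => rfl
  | cons a w ih =>
    rw [List.map_cons, List.prod_cons, List.map_cons, List.prod_cons, Subgroup.coe_mul, ih]
    rfl

theorem gen_noRel (R : ℕ) : NoRel (gen R) R := by
  intro w hc hne hl h
  have h1 := prod_sig w hc hl
  rw [← gen_prod, h] at h1
  exact hne h1.symm

theorem gen_closure (R : ℕ) : Subgroup.closure (Set.range (gen R)) = ⊤ := by
  have h : Set.range (gen R) =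
      ((↑) : Subgroup.closure (Set.range (sig R)) → Equiv.Perm (Ball R)) ⁻¹' Set.range (sig R) := by
    ext x
    constructor
    · rintro ⟨i, rfl⟩
      exact ⟨i, rfl⟩
    · rintro ⟨i, hi⟩
      exact ⟨i, Subtype.ext hi⟩
  rw [h]
  exact Subgroup.closure_closure_coe_preimage

theorem gen_ne_one {R : ℕ} (hR : 1 ≤ R) (i : Fin 3) : gen R i ≠ 1 := by
  have h := gen_noRel R [i] (by simp) (by simp) (by simpa using hR)
  simpa using h

theorem gen_inj {R : ℕ} (hR : 2 ≤ R) : Function.Injective (gen R) := by
  intro i j hij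
  by_contra hne
  have h := gen_noRel R [i, j] (by simpa using hne) (by simp) (by simpa using hR)
  apply h
  simp only [List.map_cons, List.map_nil, List.prod_cons, List.prod_nil, mul_one]
  rw [hij, gen_sq]

instance (R : ℕ) : Finite (Gam R) := inferInstance

/-- `g⁻¹` sends the empty word to a word without the letter `2`. -/
def Low {R : ℕ} (g : Gam R) : Prop := ∀ x ∈ ((g⁻¹ : Gam R).1 (emp R)).1, x ≠ 2

theorem low_mul {R : ℕ} {i : Fin 3} (hi : i ≠ 2) {g : Gam R} (hg : Low g) : Low (g * gen R i) := by
  unfold Low at *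
  have h : (((g * gen R i)⁻¹ : Gam R).1 (emp R)).1 = flip R i ((g⁻¹ : Gam R).1 (emp R)).1 := by
    rw [mul_inv_rev]
    have h3 : (gen R i)⁻¹ = gen R i := inv_eq_of_mul_eq_one_left (gen_sq R i)
    rw [h3]
    rfl
  rw [h]
  unfold flip
  split_ifs
  · intro x hx
    exact hg x (List.mem_of_mem_tail hx)
  · intro x hx
    rw [List.mem_cons] at hx
    rcases hx with rfl | hx
    · exact hi
    · exact hg x hx
  · exact hg

theorem low_iff {R : ℕ} {i : Fin 3} (hi : i ≠ 2) (g : Gam R) : Low (g * gen R i) ↔ Low g := by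
  refine ⟨fun h => ?_, low_mul hi⟩
  have := low_mul hi h
  rwa [mul_assoc, gen_sq, mul_one] at this

theorem low_one (R : ℕ) : Low (1 : Gam R) := by
  unfold Low
  rw [inv_one]
  intro x hx
  simp [emp] at hx

theorem not_low_two {R : ℕ} (hR : 1 ≤ R) : ¬ Low (gen R 2) := by
  unfold Low
  have h3 : (gen R 2)⁻¹ = gen R 2 := inv_eq_of_mul_eq_one_left (gen_sq R 2)
  rw [h3]
  intro h
  refine h 2 ?_ rfl
  change (2 : Fin 3) ∈ flip R 2 []
  unfold flip
  rw [if_neg (by simp), if_pos (by simp; omega)]
  simp

end Pool.Agent.Y855.HT
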