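import Mathlib

/-!
# Cyclic edge-connectivity and path systems

The definitions are those of `Pool/Agent/Results/MP_c13936_co/HeawoodCounterexample.lean`.
-/

namespace Pool.Agent.Y855.HT

open SimpleGraph

/-- The edges of `G` with exactly one end in `X`. -/
def cut {V : Type} (G : SimpleGraph V) (X : Set V) : Set (Sym2 V) :=
  {e | e ∈ G.edgeSet ∧ ∃ a ∈ X, ∃ b ∉ X, e = s(a, b)}

/-- A bond of `G`: a minimal nonempty edge cut. -/
def IsBond {V : Type} (G : SimpleGraph V) (B : Set (Sym2 V)) : Prop :=
  Minimal (fun C : Set (Sym2 V) => C.Nonempty ∧ ∃ X : Set V, C = cut G X) B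

/-- Cyclic `k`-edge-connectivity: `G` is connected, has two vertex-disjoint circuits, and no
bond `B` with fewer than `k` edges is such that every component of `G - B` contains a circuit. -/
def CyclicallyEdgeConnected {V : Type} (G : SimpleGraph V) (k : ℕ) : Prop :=
  G.Connected ∧
  (∃ (u v : V) (p : G.Walk u u) (q : G.Walk v v),
    p.IsCycle ∧ q.IsCycle ∧ p.support.Disjoint q.support) ∧
  ∀ B : Set (Sym2 V), IsBond G B → B.ncard < k →
    ¬ ∀ c : (G.deleteEdges B).ConnectedComponent,
      ∃ (v : V) (p : (G.deleteEdges B).Walk v v), p.IsCycle ∧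
        ∀ w ∈ p.support, (G.deleteEdges B).connectedComponentMk w = c

/-- The edge set `S` induces a path system: the graph formed by the edges in `S` has no circuit
and no vertex is incident with three or more edges of `S`. -/
def InducesPathSystem {V : Type} (S : Set (Sym2 V)) : Prop :=
  (fromEdgeSet S).IsAcyclic ∧ ∀ v : V, {e ∈ S | v ∈ e}.ncard ≤ 2

end Pool.Agent.Y855.HT
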