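import Mathlib
import Pool.Agent.Y855.HT.Cut
import Pool.Agent.Y855.HT.Defs

/-!
# Cores, circuits and cyclic edge-connectivity
-/

namespace Pool.Agent.Y855.HT

open SimpleGraph Finset

/-- A finite graph in which every vertex has two different neighbours has a circuit. -/
theorem not_acyclic {W : Type} [Finite W] [Nonempty W] (G : SimpleGraph W)
    (h : ∀ v : W, ∃ x y, x ≠ y ∧ G.Adj v x ∧ G.Adj v y) : ¬ G.IsAcyclic := by
  classical
  intro hac
  have : Finite G.edgeSet := inferInstance
  obtain ⟨u, v, p, hp, hmax⟩ := SimpleGraph.Walk.exists_isPath_forall_isPath_length_le_length G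
  obtain ⟨x, y, hxy, hx, hy⟩ := h u
  have key : ∀ z, G.Adj u z → z = p.snd := by
    intro z hz
    refine hac.eq_snd_of_adj_start hp hz ?_
    by_contra hno
    have hp' : (Walk.cons hz.symm p).IsPath := (Walk.cons_isPath_iff _ _).2 ⟨hp, hno⟩
    have := hmax _ _ _ hp'
    simp at this
  exact hxy ((key x hx).trans (key y hy).symm)

variable {V : Type} [Fintype V] [DecidableEq V] (G : SimpleGraph V) [DecidableRel G.Adj]

/-- A core contains a circuit. -/
theorem core_cycle {C : Finset V} (hC : Core G C) :
    ∃ (v : V) (p : G.Walk v v), p.IsCycle ∧ ∀ x ∈ p.support, x ∈ C := by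
  have hne : Nonempty (C : Set V) := hC.1.to_subtype
  have h := not_acyclic (G.induce (C : Set V)) (by
    intro v
    have h2 := hC.2 v.1 (by simpa using v.2)
    obtain ⟨x, hx, y, hy, hxy⟩ := Finset.one_lt_card.1 (by omega : 1 < (G.neighborFinset v.1 ∩ C).card)
    rw [Finset.mem_inter, mem_neighborFinset] at hx hy
    exact ⟨⟨x, by simpa using hx.2⟩, ⟨y, by simpa using hy.2⟩, fun h => hxy (congrArg Subtype.val h),
      hx.1, hy.1⟩)
  unfold SimpleGraph.IsAcyclic at h
  push Not at h
  obtain ⟨v, p, hp⟩ := h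
  refine ⟨_, p.map (Embedding.induce (G := G) (C : Set V)).toHom, ?_, ?_⟩
  · exact hp.map (f := (Embedding.induce (G := G) (C : Set V)).toHom) Subtype.val_injective
  · intro x hx
    rw [Walk.support_map, List.mem_map] at hx
    obtain ⟨y, -, rfl⟩ := hx
    simpa using y.2

/-- The vertices of a circuit (of a subgraph) form a core. -/
theorem cycle_core {G' : SimpleGraph V} (hle : G' ≤ G) {v : V} (p : G'.Walk v v)
    (hp : p.IsCycle) : Core G p.support.toFinset := by
  refine ⟨⟨v, by simp⟩, fun a ha => ?_⟩
  rw [List.mem_toFinset] at ha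
  have h2 := hp.ncard_neighborSet_toSubgraph_eq_two ha
  rw [Set.ncard_eq_two] at h2
  obtain ⟨x, y, hxy, h⟩ := h2
  have hmem : ∀ z, z = x ∨ z = y → z ∈ G.neighborFinset a ∩ p.support.toFinset := by
    intro z hz
    have h3 : z ∈ p.toSubgraph.neighborSet a := by rw [h]; simpa using hz
    have h4 : s(a, z) ∈ p.edges := by
      rw [← Walk.adj_toSubgraph_iff_mem_edges]
      exact h3
    rw [Finset.mem_inter, mem_neighborFinset, List.mem_toFinset]
    exact ⟨hle (p.adj_of_mem_edges h4), p.snd_mem_support_of_mem_edges h4⟩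
  have hsub : ({x, y} : Finset V) ⊆ G.neighborFinset a ∩ p.support.toFinset := by
    intro z hz
    rw [Finset.mem_insert, Finset.mem_singleton] at hz
    exact hmem z hz
  have := Finset.card_le_card hsub
  rwa [Finset.card_pair hxy] at this

/-- The number of edges of the cut is `d`. -/
theorem ncard_cut (X : Finset V) : (cut G (X : Set V)).ncard = d G X := by
  have h : cut G (X : Set V) =
      (((X ×ˢ Xᶜ).filter (fun p => G.Adj p.1 p.2)).image (fun p => s(p.1, p.2)) : Finset _) := by
    ext e
    simp only [cut, Set.mem_ofPred_eq, Finset.coe_image, Set.mem_image, Finset.mem_coe,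
      Finset.mem_filter, Finset.mem_product, Finset.mem_compl]
    constructor
    · rintro ⟨he, a, ha, b, hb, rfl⟩
      exact ⟨(a, b), ⟨⟨ha, hb⟩, by simpa using he⟩, rfl⟩
    · rintro ⟨⟨a, b⟩, ⟨⟨ha, hb⟩, hab⟩, rfl⟩
      exact ⟨by simpa using hab, a, ha, b, hb, rfl⟩
  rw [h, Set.ncard_coe_finset, Finset.card_image_of_injOn]
  · rw [d_eq, Finset.card_filter, Finset.sum_product]
    refine Finset.sum_congr rfl fun u _ => ?_
    rw [← Finset.card_filter]
    congr 1
    ext w
    simp [and_comm]
  · rintro ⟨a, b⟩ hab ⟨a', b'⟩ hab' heq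
    simp only [Finset.coe_filter, Finset.mem_product, Finset.mem_compl, Set.mem_ofPred_eq] at hab hab'
    simp only [Sym2.eq_iff] at heq
    rcases heq with ⟨rfl, rfl⟩ | ⟨rfl, rfl⟩
    · rfl
    · exact absurd hab'.1.1 hab.1.2

/-- A connected vertex-transitive cubic graph whose cores have at least `2 m` elements and which has
two disjoint cores is cyclically `m`-edge-connected. -/
theorem cyclically (hreg : ∀ v, G.degree v = 3) (hconn : G.Connected)
    (htrans : ∀ u v : V, ∃ φ : G ≃g G, φ u = v) (m : ℕ)
    (hcore : ∀ C : Finset V, Core G C → 2 * m ≤ C.card) (C D : Finset V) (hC : Core G C)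
    (hD : Core G D) (hCD : Disjoint C D) : CyclicallyEdgeConnected G m := by
  refine ⟨hconn, ?_, ?_⟩
  · obtain ⟨u, p, hp, hp'⟩ := core_cycle G hC
    obtain ⟨v, q, hq, hq'⟩ := core_cycle G hD
    exact ⟨u, v, p, q, hp, hq, fun x hx hy => Finset.disjoint_left.1 hCD (hp' x hx) (hq' x hy)⟩
  · rintro B hB hlt hall
    obtain ⟨⟨⟨e, he⟩, X, rfl⟩, -⟩ := hB
    obtain ⟨-, a, ha, b, hb, -⟩ := he
    -- walks in `G - B` do not leave `X`
    have hstay : ∀ {x y : V}, (G.deleteEdges (cut G X)).Reachable x y → (x ∈ X ↔ y ∈ X) := by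
      intro x y hxy
      obtain ⟨p⟩ := hxy
      induction p with
      | nil => rfl
      | cons h p ih =>
        rw [← ih]
        rw [deleteEdges_adj] at h
        constructor
        · intro hx
          by_contra hy
          exact h.2 ⟨h.1, _, hx, _, hy, rfl⟩
        · intro hy
          by_contra hx
          exact h.2 ⟨h.1, _, hy, _, hx, Sym2.eq_swap⟩
    have hX : (X.toFinite.toFinset : Set V) = X := Set.Finite.coe_toFinset _
    have hcyc : Cyc G X.toFinite.toFinset := by
      constructor
      · obtain ⟨v, p, hp, hp'⟩ := hall ((G.deleteEdges (cut G X)).connectedComponentMk a)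
        refine ⟨_, ?_, cycle_core G (deleteEdges_le _) p hp⟩
        intro x hx
        rw [List.mem_toFinset] at hx
        have h1 := ConnectedComponent.exact (hp' x hx)
        rw [Set.Finite.mem_toFinset]
        exact (hstay h1).2 ha
      · obtain ⟨v, p, hp, hp'⟩ := hall ((G.deleteEdges (cut G X)).connectedComponentMk b)
        refine ⟨_, ?_, cycle_core G (deleteEdges_le _) p hp⟩
        intro x hx
        rw [List.mem_toFinset] at hx
        have h1 := ConnectedComponent.exact (hp' x hx)
        rw [Finset.mem_compl, Set.Finite.mem_toFinset]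
        exact fun h => hb ((hstay h1).1 h)
    have h1 := no_small_cut G hreg hconn htrans m hcore _ hcyc
    rw [← ncard_cut, hX] at h1
    omega

end Pool.Agent.Y855.HT
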