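import Mathlib
import Pool.Agent.Y855.HT.Cyc

/-!
# The edges leaving a path with three vertices, and extending path systems
-/

namespace Pool.Agent.Y855.HT

open SimpleGraph Finset

theorem cycle_two {V : Type} (G : SimpleGraph V) {v : V} (p : G.Walk v v) (hp : p.IsCycle)
    (a : V) (ha : a ∈ p.support) :
    ∃ x y : V, x ≠ y ∧ s(a, x) ∈ p.edges ∧ s(a, y) ∈ p.edges ∧
      ∀ z, s(a, z) ∈ p.edges → z = x ∨ z = y := by
  have h2 := hp.ncard_neighborSet_toSubgraph_eq_two ha
  rw [Set.ncard_eq_two] at h2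
  obtain ⟨x, y, hxy, h⟩ := h2
  have hmem : ∀ z, s(a, z) ∈ p.edges ↔ z = x ∨ z = y := by
    intro z
    rw [← Walk.adj_toSubgraph_iff_mem_edges, ← Subgraph.mem_neighborSet, h]
    simp
  exact ⟨x, y, hxy, (hmem x).2 (Or.inl rfl), (hmem y).2 (Or.inr rfl), fun z hz => (hmem z).1 hz⟩

theorem nbr_three {V : Type} {G : SimpleGraph V} (hreg : ∀ v, (G.neighborSet v).ncard = 3)
    {v u : V} (h : G.Adj v u) :
    ∃ x y, x ≠ y ∧ x ≠ u ∧ y ≠ u ∧ ∀ z, G.Adj v z ↔ z = u ∨ z = x ∨ z = y := by
  obtain ⟨x, y, z, hxy, hxz, hyz, h3⟩ := Set.ncard_eq_three.1 (hreg v)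
  have key : ∀ w, G.Adj v w ↔ w = x ∨ w = y ∨ w = z := by
    intro w
    rw [← mem_neighborSet, h3]
    simp
  rcases (key u).1 h with rfl | rfl | rfl
  · exact ⟨y, z, hyz, hxy.symm, hxz.symm, fun w => key w⟩
  · exact ⟨x, z, hxz, hxy, hyz.symm, fun w => by rw [key]; tauto⟩
  · exact ⟨x, y, hxy, hxz, hyz, fun w => by rw [key]; tauto⟩

/-- No circuit contains all edges leaving a path with three vertices. -/
theorem no_circuit {V : Type} {G : SimpleGraph V} (hreg : ∀ v, (G.neighborSet v).ncard = 3)
    {a b c : V} (hab : G.Adj a b) (hbc : G.Adj b c) (hac : a ≠ c) (hna : ¬ G.Adj a c) {v : V}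
    (p : G.Walk v v) (hp : p.IsCycle) (hS : ∀ e ∈ cut G {a, b, c}, e ∈ p.edges) : False := by
  -- the ends of the path are saturated by leaving edges
  have key : ∀ u w : V, G.Adj u b → ¬ G.Adj u w → u ∈ ({a, b, c} : Set V) →
      (∀ z, z ∈ ({a, b, c} : Set V) → z = u ∨ z = b ∨ z = w) → s(u, b) ∉ p.edges := by
    intro u w hub huw hu hall hmem
    obtain ⟨x, y, hxy, hxb, hyb, hN⟩ := nbr_three hreg hub
    have hx : G.Adj u x := (hN x).2 (by tauto)
    have hy : G.Adj u y := (hN y).2 (by tauto)
    have hout : ∀ z, G.Adj u z → z ≠ b → z ∉ ({a, b, c} : Set V) := by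
      intro z hz hzb hzm
      rcases hall z hzm with rfl | rfl | rfl
      · exact G.loopless.irrefl _ hz
      · exact hzb rfl
      · exact huw hz
    have ex : s(u, x) ∈ p.edges := hS _ ⟨hx, u, hu, x, hout x hx hxb, rfl⟩
    have ey : s(u, y) ∈ p.edges := hS _ ⟨hy, u, hu, y, hout y hy hyb, rfl⟩
    obtain ⟨x', y', -, -, -, h0⟩ := cycle_two G p hp u (p.fst_mem_support_of_mem_edges ex)
    rcases h0 _ ex with h1 | h1 <;> rcases h0 _ ey with h2 | h2 <;> rcases h0 _ hmem with h3 | h3
    · exact hxy (h1.trans h2.symm)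
    · exact hxy (h1.trans h2.symm)
    · exact hxb (h1.trans h3.symm)
    · exact hyb (h2.trans h3.symm)
    · exact hyb (h2.trans h3.symm)
    · exact hxb (h1.trans h3.symm)
    · exact hxy (h1.trans h2.symm)
    · exact hxy (h1.trans h2.symm)
  have ka := key a c hab hna (by simp) (by intro z hz; simpa using hz)
  have kc := key c a hbc.symm (fun h => hna h.symm) (by simp) (by
    intro z hz
    simp only [Set.mem_insert_iff, Set.mem_singleton_iff] at hz
    tauto)
  obtain ⟨x, y, hxy, hxa, hya, hN⟩ := nbr_three hreg hab.symm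
  obtain ⟨t, ht⟩ : ∃ t, ∀ z, G.Adj b z → z = a ∨ z = c ∨ z = t := by
    rcases (hN c).1 hbc with h | h | h
    · exact absurd h.symm hac
    · refine ⟨y, fun z hz => ?_⟩
      rcases (hN z).1 hz with h1 | h1 | h1
      · exact Or.inl h1
      · exact Or.inr (Or.inl (h1.trans h.symm))
      · exact Or.inr (Or.inr h1)
    · refine ⟨x, fun z hz => ?_⟩
      rcases (hN z).1 hz with h1 | h1 | h1
      · exact Or.inl h1
      · exact Or.inr (Or.inr h1)
      · exact Or.inr (Or.inl (h1.trans h.symm))
  -- `a` is on the circuit, hence so is its neighbour; but `b` needs a leaving edge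
  obtain ⟨w, hw, hwa, hwc⟩ : ∃ w, G.Adj b w ∧ w ≠ a ∧ w ≠ c := by
    by_cases h : x = c
    · exact ⟨y, (hN y).2 (by tauto), hya, fun h' => hxy (h.trans h'.symm)⟩
    · exact ⟨x, (hN x).2 (by tauto), hxa, h⟩
  have hwX : w ∉ ({a, b, c} : Set V) := by
    simp only [Set.mem_insert_iff, Set.mem_singleton_iff, not_or]
    exact ⟨hwa, hw.ne', hwc⟩
  have ew : s(b, w) ∈ p.edges := hS _ ⟨hw, b, by simp, w, hwX, rfl⟩
  have m1 : ∀ z, s(b, z) ∈ p.edges → z = t := by
    intro z hz
    rcases ht z (p.adj_of_mem_edges hz) with rfl | rfl | h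
    · rw [Sym2.eq_swap] at hz
      exact absurd hz ka
    · rw [Sym2.eq_swap] at hz
      exact absurd hz kc
    · exact h
  obtain ⟨x', y', hxy', hx', hy', -⟩ := cycle_two G p hp b (p.fst_mem_support_of_mem_edges ew)
  exact hxy' ((m1 x' hx').trans (m1 y' hy').symm)

/-- A cut edge with a given end outside goes inside. -/
theorem cut_in {V : Type} {G : SimpleGraph V} {X : Set V} {w x : V} (hw : w ∉ X)
    (h : s(w, x) ∈ cut G X) : G.Adj w x ∧ x ∈ X := by
  obtain ⟨he, α, hα, β, hβ, heq⟩ := h
  refine ⟨he, ?_⟩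
  rw [Sym2.eq_iff] at heq
  rcases heq with ⟨rfl, rfl⟩ | ⟨rfl, rfl⟩
  · exact absurd hα hw
  · exact hα

/-- The edges leaving a path with three vertices form a path system. -/
theorem cut_path {V : Type} {G : SimpleGraph V} (hreg : ∀ v, (G.neighborSet v).ncard = 3)
    (h3 : ∀ x y z, G.Adj x y → G.Adj y z → ¬ G.Adj z x)
    (h4 : ∀ x y z w, x ≠ z → y ≠ w → G.Adj x y → G.Adj y z → G.Adj z w → ¬ G.Adj w x)
    {a b c : V} (hab : G.Adj a b) (hbc : G.Adj b c) (hac : a ≠ c) :
    InducesPathSystem (cut G {a, b, c}) := by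
  have uniq : ∀ w, w ∉ ({a, b, c} : Set V) → ∀ x y, x ∈ ({a, b, c} : Set V) →
      y ∈ ({a, b, c} : Set V) → G.Adj w x → G.Adj w y → x = y := by
    intro w hw x y hx hy hwx hwy
    simp only [Set.mem_insert_iff, Set.mem_singleton_iff, not_or] at hw hx hy
    obtain ⟨hwa, hwb, hwc⟩ := hw
    rcases hx with rfl | rfl | rfl <;> rcases hy with rfl | rfl | rfl
    · rfl
    · exact absurd hwy.symm (h3 _ _ _ hwx hab)
    · exact absurd hwy.symm (h4 _ _ _ _ hwb hac hwx hab hbc)
    · exact absurd hwx.symm (h3 _ _ _ hwy hab)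
    · rfl
    · exact absurd hwy.symm (h3 _ _ _ hwx hbc)
    · exact absurd hwx.symm (h4 _ _ _ _ hwb hac hwy hab hbc)
    · exact absurd hwx.symm (h3 _ _ _ hwy hbc)
    · rfl
  constructor
  · intro v p hp
    have hsub : ∀ e ∈ p.edges, e ∈ cut G {a, b, c} := by
      intro e he
      have := p.edges_subset_edgeSet he
      rw [edgeSet_fromEdgeSet] at this
      exact this.1
    have main : ∀ w ∈ p.support, w ∈ ({a, b, c} : Set V) := by
      intro w hwp
      by_contra hw
      obtain ⟨x, y, hxy, hx, hy, -⟩ := cycle_two _ p hp w hwp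
      have hx' := cut_in hw (hsub _ hx)
      have hy' := cut_in hw (hsub _ hy)
      exact hxy (uniq w hw x y hx'.2 hy'.2 hx'.1 hy'.1)
    obtain ⟨x, y, hxy, hx, hy, -⟩ := cycle_two _ p hp v p.start_mem_support
    obtain ⟨-, α, hα, β, hβ, heq⟩ := hsub _ hx
    have : β ∈ p.support := by
      rw [Sym2.eq_iff] at heq
      rcases heq with ⟨-, rfl⟩ | ⟨rfl, -⟩
      · exact p.snd_mem_support_of_mem_edges hx
      · exact p.start_mem_support
    exact hβ (main β this)
  · intro v
    by_cases hv : v ∈ ({a, b, c} : Set V)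
    · obtain ⟨u, hu, hvu⟩ : ∃ u ∈ ({a, b, c} : Set V), G.Adj v u := by
        simp only [Set.mem_insert_iff, Set.mem_singleton_iff] at hv
        rcases hv with rfl | rfl | rfl
        · exact ⟨b, by simp, hab⟩
        · exact ⟨c, by simp, hbc⟩
        · exact ⟨b, by simp, hbc.symm⟩
      obtain ⟨x, y, hxy, hxu, hyu, hN⟩ := nbr_three hreg hvu
      have hsub : {e ∈ cut G {a, b, c} | v ∈ e} ⊆ {s(v, x), s(v, y)} := by
        rintro e ⟨⟨he, α, hα, β, hβ, rfl⟩, hve⟩
        rw [Sym2.mem_iff] at hve
        rcases hve with rfl | rfl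
        · have h1 : G.Adj v β := he
          rcases (hN β).1 h1 with rfl | rfl | rfl
          · exact absurd hu hβ
          · simp
          · simp
        · exact absurd hv hβ
      refine (Set.ncard_le_ncard hsub (Set.toFinite _)).trans ?_
      refine (Set.ncard_insert_le _ _).trans ?_
      rw [Set.ncard_singleton]
    · have hsub : {e ∈ cut G {a, b, c} | v ∈ e}.Subsingleton := by
        have hform : ∀ e ∈ {e ∈ cut G {a, b, c} | v ∈ e}, ∃ x, e = s(v, x) ∧ G.Adj v x ∧
            x ∈ ({a, b, c} : Set V) := by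
          rintro e ⟨he, hve⟩
          obtain ⟨x, rfl⟩ := Sym2.mem_iff_exists.1 hve
          exact ⟨x, rfl, cut_in hv he⟩
        intro e he e' he'
        obtain ⟨x, rfl, h1, h2⟩ := hform e he
        obtain ⟨y, rfl, h5, h6⟩ := hform e' he'
        rw [uniq v hv x y h2 h6 h1 h5]
      have hfin : Finite {e ∈ cut G {a, b, c} | v ∈ e} := hsub.finite.to_subtype
      have h := Set.ncard_le_one_iff_subsingleton.2 hsub
      omega

section
variable {V : Type} [Fintype V] [DecidableEq V] (G : SimpleGraph V) [DecidableRel G.Adj]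

/-- Five edges leave a path with three vertices in a cubic graph without triangles. -/
theorem cut_five (hreg : ∀ v, G.degree v = 3)
    (h3 : ∀ x y z, G.Adj x y → G.Adj y z → ¬ G.Adj z x)
    {a b c : V} (hab : G.Adj a b) (hbc : G.Adj b c) (hac : a ≠ c) :
    (cut G {a, b, c}).ncard = 5 := by
  have hX : (({a, b, c} : Finset V) : Set V) = {a, b, c} := by simp
  rw [← hX, ncard_cut]
  have h1 := d_add_I G hreg {a, b, c}
  have hca : ¬ G.Adj c a := h3 a b c hab hbc
  have hcard : ({a, b, c} : Finset V).card = 3 :=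
    Finset.card_eq_three.2 ⟨a, b, c, hab.ne, hac, hbc.ne, rfl⟩
  have h2 : I G {a, b, c} = 4 := by
    rw [I_eq, Finset.sum_insert (by simp [hab.ne, hac]), Finset.sum_insert (by simp [hbc.ne]),
      Finset.sum_singleton]
    have e1 : G.neighborFinset a ∩ {a, b, c} = {b} := by
      ext z
      simp only [Finset.mem_inter, mem_neighborFinset, Finset.mem_insert, Finset.mem_singleton]
      constructor
      · rintro ⟨hz, rfl | rfl | rfl⟩
        · exact absurd hz (G.loopless.irrefl _)
        · rfl
        · exact absurd hz.symm hca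
      · rintro rfl
        exact ⟨hab, by simp⟩
    have e2 : G.neighborFinset b ∩ {a, b, c} = {a, c} := by
      ext z
      simp only [Finset.mem_inter, mem_neighborFinset, Finset.mem_insert, Finset.mem_singleton]
      constructor
      · rintro ⟨hz, rfl | rfl | rfl⟩
        · simp
        · exact absurd hz (G.loopless.irrefl _)
        · simp
      · rintro (rfl | rfl)
        · exact ⟨hab.symm, by simp⟩
        · exact ⟨hbc, by simp⟩
    have e3 : G.neighborFinset c ∩ {a, b, c} = {b} := by
      ext z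
      simp only [Finset.mem_inter, mem_neighborFinset, Finset.mem_insert, Finset.mem_singleton]
      constructor
      · rintro ⟨hz, rfl | rfl | rfl⟩
        · exact absurd hz hca
        · rfl
        · exact absurd hz (G.loopless.irrefl _)
      · rintro rfl
        exact ⟨hbc.symm, by simp⟩
    rw [e1, e2, e3, Finset.card_singleton, Finset.card_pair hac]
    norm_num
  omega

end

/-- Adding an edge at an uncovered vertex whose other end has degree at most one. -/
theorem insert_path {V : Type} [Finite V] {S : Set (Sym2 V)} (hS : InducesPathSystem S) {v u : V}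
    (hvu : v ≠ u) (hv : ∀ e ∈ S, v ∉ e) (hu : {e ∈ S | u ∈ e}.ncard ≤ 1) :
    InducesPathSystem (insert s(v, u) S) := by
  constructor
  · intro x p hp
    have hsub : ∀ e ∈ p.edges, e ∈ insert s(v, u) S := by
      intro e he
      have := p.edges_subset_edgeSet he
      rw [edgeSet_fromEdgeSet] at this
      exact this.1
    by_cases hvp : v ∈ p.support
    · obtain ⟨y, z, hyz, hy, hz, -⟩ := cycle_two _ p hp v hvp
      have key : ∀ t, s(v, t) ∈ p.edges → t = u := by
        intro t ht
        rcases hsub _ ht with h | h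
        · rw [Sym2.eq_iff] at h
          rcases h with ⟨-, h⟩ | ⟨h, -⟩
          · exact h
          · exact absurd h hvu
        · exact absurd (Sym2.mem_mk_left _ _) (hv _ h)
      exact hyz ((key y hy).trans (key z hz).symm)
    · have hall : ∀ e ∈ p.edges, e ∈ (fromEdgeSet S).edgeSet := by
        intro e he
        have h1 := p.edges_subset_edgeSet he
        rw [edgeSet_fromEdgeSet] at h1 ⊢
        refine ⟨?_, h1.2⟩
        rcases h1.1 with rfl | h
        · exact absurd (p.fst_mem_support_of_mem_edges he) hvp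
        · exact h
      exact hS.1 (p.transfer _ hall) (hp.transfer hall)
  · intro x
    by_cases hxv : x = v
    · subst hxv
      have hsub : {e ∈ insert s(x, u) S | x ∈ e} ⊆ {s(x, u)} := by
        rintro e ⟨rfl | he, hxe⟩
        · rfl
        · exact absurd hxe (hv _ he)
      have := Set.ncard_le_ncard hsub (Set.toFinite _)
      rw [Set.ncard_singleton] at this
      omega
    · by_cases hxu : x = u
      · subst hxu
        have hsub : {e ∈ insert s(v, x) S | x ∈ e} ⊆ insert s(v, x) {e ∈ S | x ∈ e} := by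
          rintro e ⟨rfl | he, hxe⟩
          · exact Or.inl rfl
          · exact Or.inr ⟨he, hxe⟩
        have h1 := Set.ncard_le_ncard hsub (Set.toFinite _)
        have h2 := Set.ncard_insert_le s(v, x) {e ∈ S | x ∈ e}
        omega
      · have hsub : {e ∈ insert s(v, u) S | x ∈ e} ⊆ {e ∈ S | x ∈ e} := by
          rintro e ⟨rfl | he, hxe⟩
          · rw [Sym2.mem_iff] at hxe
            tauto
          · exact ⟨he, hxe⟩
        exact (Set.ncard_le_ncard hsub (Set.toFinite _)).trans (hS.2 x)

end Pool.Agent.Y855.HT
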