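import Mathlib
import Pool.Agent.Y855.HT.Cyc

/-!
# Cyclic edge-connectivity forces large cores
-/

namespace Pool.Agent.Y855.HT

open SimpleGraph Finset

theorem stay {V : Type} {G : SimpleGraph V} {X Y : Set V} (h : cut G X ⊆ cut G Y) {x y : V}
    (hxy : (G.deleteEdges (cut G Y)).Reachable x y) : x ∈ X ↔ y ∈ X := by
  obtain ⟨p⟩ := hxy
  induction p with
  | nil => rfl
  | cons hadj p ih =>
    rw [← ih]
    rw [deleteEdges_adj] at hadj
    constructor
    · intro hx
      by_contra hy
      exact hadj.2 (h ⟨hadj.1, _, hx, _, hy, rfl⟩)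
    · intro hy
      by_contra hx
      exact hadj.2 (h ⟨hadj.1, _, hy, _, hx, Sym2.eq_swap⟩)

theorem not_cut {V : Type} {G : SimpleGraph V} {X : Set V} {x y : V} (h : x ∈ X ↔ y ∈ X) :
    s(x, y) ∉ cut G X := by
  rintro ⟨-, α, hα, β, hβ, heq⟩
  rw [Sym2.eq_iff] at heq
  rcases heq with ⟨rfl, rfl⟩ | ⟨rfl, rfl⟩
  · exact hβ (h.1 hα)
  · exact hβ (h.2 hα)

variable {V : Type} [Fintype V] [DecidableEq V] (G : SimpleGraph V) [DecidableRel G.Adj]

/-- In a cyclically `k`-edge-connected cubic graph all cores have at least `k` vertices, and there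
are at least `2 k` vertices. -/
theorem core_of_cec (hreg : ∀ v, G.degree v = 3) {k : ℕ} (h : CyclicallyEdgeConnected G k) :
    (∀ C : Finset V, Core G C → k ≤ C.card) ∧ 2 * k ≤ Fintype.card V := by
  classical
  obtain ⟨hconn, ⟨u1, u2, p1, p2, hp1, hp2, hdisj⟩, hbond⟩ := h
  have c1 := cycle_core G le_rfl p1 hp1
  have c2 := cycle_core G le_rfl p2 hp2
  have hd12 : Disjoint p1.support.toFinset p2.support.toFinset := by
    rw [Finset.disjoint_left]
    intro x hx hx'
    exact hdisj (by simpa using hx) (by simpa using hx')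
  have hn := Finset.card_le_univ (p1.support.toFinset ∪ p2.support.toFinset)
  rw [Finset.card_union_of_disjoint hd12] at hn
  have key : ∀ C : Finset V, Core G C → k ≤ C.card := by
    -- a smallest core
    obtain ⟨A, hA, hmin⟩ := Finset.exists_min_image
      (Finset.univ.filter (fun Z : Finset V => Core G Z)) Finset.card ⟨_, by simpa using c1⟩
    rw [Finset.mem_filter] at hA
    replace hA := hA.2
    replace hmin : ∀ C, Core G C → A.card ≤ C.card := fun C hC => hmin C (by simpa using hC)
    suffices hk : k ≤ A.card from fun C hC => hk.trans (hmin C hC)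
    by_contra hlt
    push Not at hlt
    have h1 := hmin _ c1
    have h2 := hmin _ c2
    -- a circuit in `A`
    obtain ⟨a0, p, hp, hpA⟩ := core_cycle G hA
    have hAp : ∀ x ∈ A, x ∈ p.support := by
      have := Finset.eq_of_subset_of_card_le
        (fun x hx => hpA x (by simpa using hx) : p.support.toFinset ⊆ A)
        (hmin _ (cycle_core G le_rfl p hp))
      intro x hx
      rw [← this] at hx
      simpa using hx
    have ha0 : a0 ∈ A := hpA _ p.start_mem_support
    -- few edges leave `A`
    have hdA : d G A ≤ A.card := by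
      rw [d_eq, Finset.card_eq_sum_ones]
      refine Finset.sum_le_sum fun u hu => ?_
      have e1 := hA.2 u hu
      have e2 := Finset.card_sdiff_add_card_inter (G.neighborFinset u) A
      rw [card_neighborFinset_eq_degree, hreg] at e2
      omega
    -- a circuit outside `A`
    have hcompl := Finset.card_compl_add_card A
    have hApos : 0 < A.card := Finset.card_pos.2 hA.1
    obtain ⟨D, hD, hDcore⟩ := exists_core G _ Aᶜ rfl (Finset.card_pos.1 (by omega)) (by
      have e1 := d_add_I G hreg Aᶜ
      rw [d_compl] at e1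
      omega)
    obtain ⟨b0, q, hq, hqD⟩ := core_cycle G hDcore
    have hqA : ∀ x ∈ q.support, x ∉ A := fun x hx => Finset.mem_compl.1 (hD (hqD x hx))
    -- its component
    set B : Set V := {w | (G.deleteEdges (cut G (A : Set V))).Reachable b0 w} with hB
    have hb0 : b0 ∈ B := Reachable.refl _
    have hBA : ∀ x ∈ B, x ∉ A := by
      intro x hx hxA
      have := (stay (X := (A : Set V)) subset_rfl hx).2 hxA
      exact hqA _ q.start_mem_support this
    have ha0B : a0 ∉ B := fun h => hBA _ h ha0
    have hcut : cut G B ⊆ cut G (A : Set V) := by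
      rintro e ⟨he, x, hx, y, hy, rfl⟩
      by_contra hno
      exact hy (hx.trans (Adj.reachable (deleteEdges_adj.2 ⟨he, hno⟩)))
    have hle : G.deleteEdges (cut G (A : Set V)) ≤ G.deleteEdges (cut G B) := by
      intro x y hxy
      rw [deleteEdges_adj] at hxy ⊢
      exact ⟨hxy.1, fun h => hxy.2 (hcut h)⟩
    have hRB : ∀ x ∈ B, (G.deleteEdges (cut G B)).Reachable b0 x := fun x hx => Reachable.mono hle hx
    -- the two circuits in `G - cut`
    have hp'' : ∀ e ∈ p.edges, e ∈ (G.deleteEdges (cut G B)).edgeSet := by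
      intro e he
      induction e using Sym2.ind with
      | _ x y =>
        rw [mem_edgeSet, deleteEdges_adj]
        refine ⟨p.adj_of_mem_edges he, not_cut ?_⟩
        have hx := hpA _ (p.fst_mem_support_of_mem_edges he)
        have hy := hpA _ (p.snd_mem_support_of_mem_edges he)
        exact iff_of_false (fun h => hBA _ h hx) (fun h => hBA _ h hy)
    have hq'' : ∀ e ∈ q.edges, e ∈ (G.deleteEdges (cut G B)).edgeSet := by
      intro e he
      induction e using Sym2.ind with
      | _ x y =>
        rw [mem_edgeSet, deleteEdges_adj]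
        refine ⟨q.adj_of_mem_edges he, fun hc => ?_⟩
        have hx := hqA _ (q.fst_mem_support_of_mem_edges he)
        have hy := hqA _ (q.snd_mem_support_of_mem_edges he)
        exact not_cut (X := (A : Set V)) (iff_of_false hx hy) (hcut hc)
    have hRp : ∀ x ∈ p.support, (G.deleteEdges (cut G B)).Reachable a0 x := by
      intro x hx
      have hx' : x ∈ (p.transfer _ hp'').support := by rwa [Walk.support_transfer]
      exact ⟨(p.transfer _ hp'').takeUntil x hx'⟩
    have hRq : ∀ x ∈ q.support, (G.deleteEdges (cut G B)).Reachable b0 x := by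
      intro x hx
      have hx' : x ∈ (q.transfer _ hq'').support := by rwa [Walk.support_transfer]
      exact ⟨(q.transfer _ hq'').takeUntil x hx'⟩
    have hR2 : ∀ x z, ∀ r : G.Walk x z, z = a0 → x ∉ B →
        (G.deleteEdges (cut G B)).Reachable x a0 := by
      intro x z r
      induction r with
      | nil => rintro rfl _; exact Reachable.refl _
      | @cons x y z hadj r ih =>
        intro hz hx
        by_cases hy : y ∈ B
        · have hc : s(y, x) ∈ cut G B := ⟨hadj.symm, y, hy, x, hx, rfl⟩
          obtain ⟨-, α, hα, β, hβ, heq⟩ := hcut hc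
          rw [Sym2.eq_iff] at heq
          have hxA : x ∈ A := by
            rcases heq with ⟨rfl, rfl⟩ | ⟨rfl, rfl⟩
            · exact absurd hα (hBA _ hy)
            · exact hα
          exact (hRp x (hAp x hxA)).symm
        · refine Reachable.trans (Adj.reachable ?_) (ih hz hy)
          rw [deleteEdges_adj]
          exact ⟨hadj, not_cut (iff_of_false hx hy)⟩
    have hRA : ∀ x, x ∉ B → (G.deleteEdges (cut G B)).Reachable x a0 := by
      intro x hx
      obtain ⟨r⟩ := hconn.preconnected x a0
      exact hR2 x a0 r rfl hx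
    -- `cut G B` is a bond
    have hne : (cut G B).Nonempty := by
      obtain ⟨r⟩ := hconn.preconnected b0 a0
      obtain ⟨dd, -, hd2, hd3⟩ := r.exists_boundary_dart B hb0 ha0B
      exact ⟨_, dd.adj, dd.fst, hd2, dd.snd, hd3, rfl⟩
    have hIsB : IsBond G (cut G B) := by
      refine ⟨⟨hne, B, rfl⟩, ?_⟩
      rintro _ ⟨⟨e, he⟩, Y, rfl⟩ hYB
      have hY : ∀ x y, (G.deleteEdges (cut G B)).Reachable x y → (x ∈ Y ↔ y ∈ Y) :=
        fun x y hxy => stay hYB hxy
      have hBY : ∀ x ∈ B, (x ∈ Y ↔ b0 ∈ Y) := fun x hx => (hY _ _ (hRB x hx)).symm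
      have hAY : ∀ x, x ∉ B → (x ∈ Y ↔ a0 ∈ Y) := fun x hx => hY _ _ (hRA x hx)
      have hdiff : ¬ (b0 ∈ Y ↔ a0 ∈ Y) := by
        intro hiff
        obtain ⟨-, x, hx, y, hy, rfl⟩ := he
        have hx1 : x ∈ Y ↔ a0 ∈ Y := by
          by_cases hxB : x ∈ B
          · exact (hBY x hxB).trans hiff
          · exact hAY x hxB
        have hy1 : y ∈ Y ↔ a0 ∈ Y := by
          by_cases hyB : y ∈ B
          · exact (hBY y hyB).trans hiff
          · exact hAY y hyB
        exact hy (hy1.2 (hx1.1 hx))
      rintro e' ⟨he', x, hx, y, hy, rfl⟩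
      have hx1 := hBY x hx
      have hy1 := hAY y hy
      by_cases hxY : x ∈ Y
      · exact ⟨he', x, hxY, y, fun h => hdiff ⟨fun _ => hy1.1 h, fun _ => hx1.1 hxY⟩, rfl⟩
      · have hyY : y ∈ Y := by
          by_contra h
          exact hdiff ⟨fun h' => absurd (hx1.2 h') hxY, fun h' => absurd (hy1.2 h') h⟩
        exact ⟨he', y, hyY, x, hxY, Sym2.eq_swap⟩
    have hsmall : (cut G B).ncard < k := by
      have e1 := Set.ncard_le_ncard hcut (Set.toFinite _)
      rw [ncard_cut] at e1
      omega
    refine hbond _ hIsB hsmall ?_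
    intro c
    induction c using ConnectedComponent.ind with
    | _ x =>
      by_cases hx : x ∈ B
      · refine ⟨b0, q.transfer _ hq'', hq.transfer hq'', ?_⟩
        intro w hw
        rw [Walk.support_transfer] at hw
        exact ConnectedComponent.sound ((hRq w hw).symm.trans (hRB x hx))
      · refine ⟨a0, p.transfer _ hp'', hp.transfer hp'', ?_⟩
        intro w hw
        rw [Walk.support_transfer] at hw
        exact ConnectedComponent.sound ((hRp w hw).symm.trans (hRA x hx).symm)
  refine ⟨key, ?_⟩
  have h1 := key _ c1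
  have h2 := key _ c2
  omega

end Pool.Agent.Y855.HT
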