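import Mathlib
import Pool.Agent.Y855.HT.Loc
import Pool.Agent.Y855.HT.Univ
import Pool.Agent.Y855.HT.Cay

/-!
# Extending path systems, and the two halves of the theorem
-/

namespace Pool.Agent.Y855.HT

open SimpleGraph Finset

/-- A small path system of a cubic graph can be extended by one edge. -/
theorem extend_one {V : Type} [Finite V] {G : SimpleGraph V}
    (hreg : ∀ v, (G.neighborSet v).ncard = 3) {S : Set (Sym2 V)} (hSG : S ⊆ G.edgeSet)
    (hS : InducesPathSystem S) (hlt : 2 * S.ncard < Nat.card V) :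
    ∃ e ∈ G.edgeSet, e ∉ S ∧ InducesPathSystem (insert e S) := by
  classical
  have hfin : Fintype V := Fintype.ofFinite V
  by_contra hno
  push Not at hno
  have h2 : ∀ v u, (∀ e ∈ S, v ∉ e) → G.Adj v u → {e ∈ S | u ∈ e}.ncard = 2 := by
    intro v u hv hvu
    by_contra hne
    have h0 := hS.2 u
    exact hno s(v, u) hvu (fun h => hv _ h (Sym2.mem_mk_left _ _))
      (insert_path hS hvu.ne hv (by omega))
  have h1 : ∀ u v v', {e ∈ S | u ∈ e}.ncard = 2 → G.Adj u v → G.Adj u v' → (∀ e ∈ S, v ∉ e) →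
      (∀ e ∈ S, v' ∉ e) → v = v' := by
    intro u v v' hu hv hv' hcv hcv'
    by_contra hne
    obtain ⟨e1, e2, he, hset⟩ := Set.ncard_eq_two.1 hu
    have m1 : e1 ∈ {e ∈ S | u ∈ e} := by rw [hset]; simp
    have m2 : e2 ∈ {e ∈ S | u ∈ e} := by rw [hset]; simp
    obtain ⟨x1, rfl⟩ := Sym2.mem_iff_exists.1 m1.2
    obtain ⟨x2, rfl⟩ := Sym2.mem_iff_exists.1 m2.2
    have a1 : G.Adj u x1 := hSG m1.1
    have a2 : G.Adj u x2 := hSG m2.1
    have hx12 : x1 ≠ x2 := by rintro rfl; exact he rfl
    have hv1 : v ≠ x1 := by rintro rfl; exact hcv _ m1.1 (Sym2.mem_mk_right _ _)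
    have hv2 : v ≠ x2 := by rintro rfl; exact hcv _ m2.1 (Sym2.mem_mk_right _ _)
    have hv1' : v' ≠ x1 := by rintro rfl; exact hcv' _ m1.1 (Sym2.mem_mk_right _ _)
    have hv2' : v' ≠ x2 := by rintro rfl; exact hcv' _ m2.1 (Sym2.mem_mk_right _ _)
    obtain ⟨x, y, -, -, -, hN⟩ := nbr_three hreg hv
    have k1 := (hN v').1 hv'
    have k2 := (hN x1).1 a1
    have k3 := (hN x2).1 a2
    grind
  -- counting
  let D : V → ℕ := fun v => {e ∈ S | v ∈ e}.ncard
  have hD0 : ∀ v, D v = 0 → ∀ e ∈ S, v ∉ e := by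
    intro v hv e he hve
    have : {e ∈ S | v ∈ e} = ∅ := (Set.ncard_eq_zero (Set.toFinite _)).1 hv
    have hmem : e ∈ {e ∈ S | v ∈ e} := ⟨he, hve⟩
    rw [this] at hmem
    exact hmem
  have hnb : ∀ v, ∃ u, G.Adj v u := by
    intro v
    have : (G.neighborSet v).Nonempty := by
      rw [← Set.ncard_pos (Set.toFinite _), hreg]
      norm_num
    exact this
  choose nb hnb using hnb
  have hle : (Finset.univ.filter (fun v => D v = 0)).card ≤
      (Finset.univ.filter (fun v => D v = 2)).card := by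
    refine Finset.card_le_card_of_injOn nb ?_ ?_
    · intro v hv
      simp only [Finset.coe_filter, Finset.mem_univ, true_and, Set.mem_ofPred_eq] at hv ⊢
      exact h2 v _ (hD0 v hv) (hnb v)
    · intro v hv v' hv' heq
      simp only [Finset.coe_filter, Finset.mem_univ, true_and, Set.mem_ofPred_eq] at hv hv'
      refine h1 (nb v) v v' (h2 v _ (hD0 v hv) (hnb v)) (hnb v).symm ?_ (hD0 v hv) (hD0 v' hv')
      rw [heq]
      exact (hnb v').symm
  have hsum : ∑ v, D v + (Finset.univ.filter (fun v => D v = 0)).card =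
      Fintype.card V + (Finset.univ.filter (fun v => D v = 2)).card := by
    rw [← Finset.card_univ, Finset.card_eq_sum_ones Finset.univ, Finset.card_filter,
      Finset.card_filter, ← Finset.sum_add_distrib, ← Finset.sum_add_distrib]
    refine Finset.sum_congr rfl fun v _ => ?_
    have hle2 : D v ≤ 2 := hS.2 v
    have hcases : D v = 0 ∨ D v = 1 ∨ D v = 2 := by omega
    rcases hcases with h | h | h <;> simp [h]
  have hshake : ∑ v, D v ≤ 2 * S.ncard := by
    have hSf : (S.toFinite.toFinset : Set (Sym2 V)) = S := Set.Finite.coe_toFinset _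
    have e1 : ∀ v, D v = ∑ e ∈ S.toFinite.toFinset, if v ∈ e then 1 else 0 := by
      intro v
      rw [← Finset.card_filter, ← Set.ncard_coe_finset]
      have hset : {e ∈ S | v ∈ e} =
          (S.toFinite.toFinset.filter (fun e => v ∈ e) : Finset (Sym2 V)) := by
        ext e
        rw [Finset.mem_coe, Finset.mem_filter, Set.Finite.mem_toFinset]
        rfl
      change {e ∈ S | v ∈ e}.ncard = _
      rw [hset]
    simp_rw [e1]
    rw [Finset.sum_comm]
    have e2 : ∀ e ∈ S.toFinite.toFinset, (∑ v, if v ∈ e then 1 else 0) ≤ 2 := by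
      intro e _
      rw [← Finset.card_filter]
      induction e using Sym2.ind with
      | _ a b =>
        refine (Finset.card_le_card (t := {a, b}) ?_).trans Finset.card_le_two
        intro v hv
        simpa using hv
    refine (Finset.sum_le_sum e2).trans ?_
    rw [Finset.sum_const, smul_eq_mul, mul_comm, ← Set.ncard_coe_finset, hSf]
  rw [Nat.card_eq_fintype_card] at hlt
  omega

/-- A path system of a cubic graph extends to one with `N` edges if `2 N` is at most the number
of vertices. -/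
theorem extend {V : Type} [Finite V] {G : SimpleGraph V}
    (hreg : ∀ v, (G.neighborSet v).ncard = 3) {S₀ : Set (Sym2 V)} (hSG : S₀ ⊆ G.edgeSet)
    (hS : InducesPathSystem S₀) (N : ℕ) (hN : S₀.ncard ≤ N) (hcard : 2 * N ≤ Nat.card V) :
    ∃ S ⊆ G.edgeSet, S₀ ⊆ S ∧ S.ncard = N ∧ InducesPathSystem S := by
  induction N, hN using Nat.le_induction with
  | base => exact ⟨S₀, hSG, subset_rfl, rfl, hS⟩
  | succ N _ ih =>
    obtain ⟨S, h1, h2, h3, h4⟩ := ih (by omega)
    obtain ⟨e, he, heS, h5⟩ := extend_one hreg h1 h4 (by omega)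
    refine ⟨insert e S, Set.insert_subset he h1, h2.trans (Set.subset_insert _ _), ?_, h5⟩
    rw [Set.ncard_insert_of_notMem heS (Set.toFinite _), h3]

theorem core_of_pairs {V : Type} [Fintype V] [DecidableEq V] (G : SimpleGraph V)
    [DecidableRel G.Adj] {C : Finset V} (hne : C.Nonempty)
    (h : ∀ v ∈ C, ∃ s t, s ≠ t ∧ s ∈ C ∧ t ∈ C ∧ G.Adj v s ∧ G.Adj v t) : Core G C := by
  refine ⟨hne, fun v hv => ?_⟩
  obtain ⟨s, t, hst, hs, ht, hvs, hvt⟩ := h v hv
  rw [← Finset.card_pair hst]
  refine Finset.card_le_card fun z hz => ?_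
  rw [Finset.mem_insert, Finset.mem_singleton] at hz
  rw [Finset.mem_inter, mem_neighborFinset]
  rcases hz with rfl | rfl
  · exact ⟨hvs, hs⟩
  · exact ⟨hvt, ht⟩

/-- In a cyclically `5`-edge-connected cubic graph the five edges leaving a path with three vertices
form a path system and lie on no circuit; the path system extends to one with `N` edges whenever
`5 ≤ N` and `2 N` is at most the number of vertices. -/
theorem five_edges {k : ℕ} (hk : 5 ≤ k) {V : Type} [Finite V] {G : SimpleGraph V}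
    (hreg : ∀ v, (G.neighborSet v).ncard = 3) (hcec : CyclicallyEdgeConnected G k) {a b c : V}
    (hab : G.Adj a b) (hbc : G.Adj b c) (hac : a ≠ c) :
    (cut G {a, b, c}).ncard = 5 ∧ InducesPathSystem (cut G {a, b, c}) ∧
      (¬ ∃ (v : V) (p : G.Walk v v), p.IsCycle ∧ ∀ e ∈ cut G {a, b, c}, e ∈ p.edges) ∧
      2 * k ≤ Nat.card V ∧
      ∀ N : ℕ, 5 ≤ N → 2 * N ≤ Nat.card V →
        ∃ S ⊆ G.edgeSet, cut G {a, b, c} ⊆ S ∧ S.ncard = N ∧ InducesPathSystem S := by
  classical
  have hfin : Fintype V := Fintype.ofFinite V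
  have hdeg : ∀ v, G.degree v = 3 := by
    intro v
    rw [← card_neighborSet_eq_degree, ← hreg v, Set.ncard_eq_toFinset_card', Set.toFinset_card]
  obtain ⟨hcore, hcard⟩ := core_of_cec G hdeg hcec
  have h3 : ∀ x y z, G.Adj x y → G.Adj y z → ¬ G.Adj z x := by
    intro x y z hxy hyz hzx
    have h1 := hcore {x, y, z} (core_of_pairs G (by simp) (by
      intro v hv
      simp only [Finset.mem_insert, Finset.mem_singleton] at hv
      rcases hv with rfl | rfl | rfl
      · exact ⟨y, z, hyz.ne, by simp, by simp, hxy, hzx.symm⟩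
      · exact ⟨x, z, hzx.ne', by simp, by simp, hxy.symm, hyz⟩
      · exact ⟨x, y, hxy.ne, by simp, by simp, hzx, hyz.symm⟩))
    have h2 : ({x, y, z} : Finset V).card ≤ 3 := Finset.card_le_three
    omega
  have h4 : ∀ x y z w, x ≠ z → y ≠ w → G.Adj x y → G.Adj y z → G.Adj z w → ¬ G.Adj w x := by
    intro x y z w hxz hyw hxy hyz hzw hwx
    have h1 := hcore {x, y, z, w} (core_of_pairs G (by simp) (by
      intro v hv
      simp only [Finset.mem_insert, Finset.mem_singleton] at hv
      rcases hv with rfl | rfl | rfl | rfl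
      · exact ⟨y, w, hyw, by simp, by simp, hxy, hwx.symm⟩
      · exact ⟨x, z, hxz, by simp, by simp, hxy.symm, hyz⟩
      · exact ⟨y, w, hyw, by simp, by simp, hyz.symm, hzw⟩
      · exact ⟨x, z, hxz, by simp, by simp, hwx, hzw.symm⟩))
    have h2 : ({x, y, z, w} : Finset V).card ≤ 4 := Finset.card_le_four
    omega
  have h5 := cut_five G hdeg h3 hab hbc hac
  have h6 := cut_path hreg h3 h4 hab hbc hac
  refine ⟨h5, h6, ?_, by rw [Nat.card_eq_fintype_card]; exact hcard, ?_⟩
  · rintro ⟨v, p, hp, hpS⟩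
    exact no_circuit hreg hab hbc hac (fun h => h3 a b c hab hbc h.symm) p hp hpS
  · intro N hN hNV
    exact extend hreg (S₀ := cut G {a, b, c}) (fun e he => he.1) h6 N (by omega) hNV

/-- Vertex-transitive cubic graphs of arbitrarily large cyclic edge-connectivity. -/
theorem exists_graph (m : ℕ) : ∃ (V : Type) (_ : Finite V) (G : SimpleGraph V),
    (∀ v, (G.neighborSet v).ncard = 3) ∧ (∀ u v : V, ∃ φ : G ≃g G, φ u = v) ∧
      CyclicallyEdgeConnected G m := by
  classical
  set R := 2 * m + 2 with hR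
  have hfin : Fintype (Gam R) := Fintype.ofFinite _
  have hR1 : 1 ≤ R := by omega
  let G : SimpleGraph (Gam R) := cay (gen R) (gen_sq R) (gen_ne_one hR1)
  have hreg : ∀ v, (G.neighborSet v).ncard = 3 := cay_nbr (gen_inj (by omega))
  have hdeg : ∀ v, G.degree v = 3 := by
    intro v
    rw [← card_neighborSet_eq_degree, ← hreg v, Set.ncard_eq_toFinset_card', Set.toFinset_card]
  have hne : ∀ v : Gam R, v * gen R 0 ≠ v * gen R 1 := by
    intro v h
    have := gen_inj (by omega) (mul_left_cancel h)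
    exact absurd this (by decide)
  refine ⟨Gam R, inferInstance, G, hreg, cay_trans, ?_⟩
  refine cyclically G hdeg (cay_connected (gen_closure R)) cay_trans m (fun C hC => ?_)
    (Finset.univ.filter (fun g : Gam R => Low g)) (Finset.univ.filter (fun g : Gam R => ¬ Low g))
    ?_ ?_ ?_
  · have := core_card (gen_noRel R) C hC
    omega
  · refine core_of_pairs G ⟨1, by simpa using low_one R⟩ fun v hv => ?_
    simp only [Finset.mem_filter, Finset.mem_univ, true_and] at hv
    refine ⟨v * gen R 0, v * gen R 1, hne v, ?_, ?_, ⟨0, rfl⟩, ⟨1, rfl⟩⟩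
    · simpa using (low_iff (by decide) v).2 hv
    · simpa using (low_iff (by decide) v).2 hv
  · refine core_of_pairs G ⟨gen R 2, by simpa using not_low_two hR1⟩ fun v hv => ?_
    simp only [Finset.mem_filter, Finset.mem_univ, true_and] at hv
    refine ⟨v * gen R 0, v * gen R 1, hne v, ?_, ?_, ⟨0, rfl⟩, ⟨1, rfl⟩⟩
    · simpa using fun h => hv ((low_iff (by decide) v).1 h)
    · simpa using fun h => hv ((low_iff (by decide) v).1 h)
  · exact Finset.disjoint_filter_filter_not _ _ _

end Pool.Agent.Y855.HT
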